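import Pool.Agent.MP_8d06cc_nt.AB.Spec
import Pool.Agent.MP_8d06cc_nt.AN.Desc

/-! Certificates descend to algebraically closed subfields. -/

set_option autoImplicit false

namespace Pool.Agent.MP_8d06cc_nt.DESC

open Polynomial AB

/-- Certificates are transported along ring maps. -/
theorem cert_map {R S ι : Type} [CommRing R] [CommRing S] [Fintype ι] (φ : R →+* S)
    {e : Fin 8 → R} {x y : ι → R} {n : ι → ℤ} {ν : ℤ} (h : Cert e x y n ν) :
    Cert (fun i => φ (e i)) (fun p => φ (x p)) (fun p => φ (y p)) n ν := by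
  obtain ⟨A, B, M, c, hab, hc, hN, dA, dB, hp, hm, hν⟩ := h
  refine ⟨A.map φ, B.map φ, M, φ c, hab.map (mapRingHom φ), hc.map φ, ?_,
    degree_map_le.trans dA, degree_map_le.trans_lt dB, fun p h => ?_, fun p h => ?_,
    hν.imp_right fun ⟨h4, hU, σ, h1, h2, h3⟩ => ⟨h4, ?_, σ, h1, ?_, h3⟩⟩
  · simpa [AN.fz_map, Polynomial.map_prod] using congrArg (Polynomial.map φ) hN
  · simpa [eval_map_apply] using congrArg φ (hp p h)
  · simpa [eval_map_apply] using congrArg φ (hm p h)
  · rw [coeff_map]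
    exact hU.map φ
  · simpa using congrArg φ h2

/-- A nonzero finitely generated algebra over an algebraically closed field has a point. -/
theorem exists_pt (K R : Type) [Field K] [IsAlgClosed K] [CommRing R] [Nontrivial R] [Algebra K R]
    [Algebra.FiniteType K R] : Nonempty (R →ₐ[K] K) := by
  obtain ⟨m, hm⟩ := Ideal.exists_maximal R
  let := Ideal.Quotient.field m
  have : Module.Finite K (R ⧸ m) := finite_of_finite_type_of_isJacobsonRing K (R ⧸ m)
  exact ⟨(IsAlgClosed.lift (R := K) (S := R ⧸ m) (M := K)).comp (Ideal.Quotient.mkₐ K m)⟩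

theorem desc : StmtDESC := by
  intro E ι _ _ K _ e x y n ν h
  obtain ⟨u, hu, H⟩ := AN.cert_lift h
  have : Algebra.FiniteType K (Algebra.adjoin K u) :=
    (Subalgebra.fg_iff_finiteType _).1 (Subalgebra.fg_def.2 ⟨u, hu, rfl⟩)
  obtain ⟨ψ⟩ := exists_pt K (Algebra.adjoin K u)
  simpa using cert_map (ψ : Algebra.adjoin K u →+* K) (H (Algebra.adjoin K u)
    (Algebra.adjoin K u).val.toRingHom Subtype.val_injective
    (fun a ha => ⟨⟨a, Algebra.subset_adjoin ha⟩, rfl⟩) (fun i => algebraMap K _ (e i))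
    (fun p => algebraMap K _ (x p)) (fun p => algebraMap K _ (y p)) (fun _ => rfl) (fun _ => rfl)
    fun _ => rfl)

end Pool.Agent.MP_8d06cc_nt.DESC
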